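import Pool.Agent.Helper985.CT.Final
import Pool.Agent.Helper221.Rare.Center

set_option autoImplicit false

open MeasureTheory
open scoped Topology

namespace Pool.Agent.Results.MP_0655ed_mp.RareSpecies

open Pool.Agent.Helper985.CP Pool.Agent.Helper221.Rare

/-- insertion of a pair whose species `b` has `n b` particles -/
theorem upperT_rare {S : Type} [Fintype S] [DecidableEq S] (D : Species S) (hD : D.Valid)
    (hst : HStable D) (a b : S) (hb : D.charge b = -D.charge a) (ρ T : ℝ) (hρ : 0 < ρ)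
    (hT : 0 < T) :
    ∃ C : ℝ, ∀ n : S → ℕ, 1 ≤ ∑ s, (n s : ℝ) →
      freeEnergy D (((∑ s, (n s : ℝ)) / ρ) ^ (1 / 3 : ℝ)) T (addPair n a b) ≤
        freeEnergy D (((∑ s, (n s : ℝ)) / ρ) ^ (1 / 3 : ℝ)) T n + C -
          T * Real.log ((∑ s, (n s : ℝ)) / (n b + 1)) := by
  obtain ⟨K, hK, h⟩ := rare_upper D hD hst ((1 / (4096 * ρ)) ^ (1 / 3 : ℝ)) T (by positivity)
    hT
  refine ⟨T * Real.log K, fun n hn => ?_⟩
  obtain ⟨h0, h1, h2⟩ := final_radius (∑ s, (n s : ℝ)) ρ hn hρ
  have h3 := h a b hb (fun i : (Σ s, Fin (n s)) => i.1) _ h1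
    (by rw [card_sigma]; exact h2 _ (by linarith))
  obtain ⟨e, he⟩ := addPair_equiv n a b
  rw [(peierls_relabel D e _ (fun i => i.1) he _ T).1, card_sigma, cnt_sigma] at h3
  have hN : 0 < ∑ s, (n s : ℝ) := by linarith
  have hℓ : 0 < ((∑ s, (n s : ℝ)) / ρ) ^ (1 / 3 : ℝ) := by
    have : 0 < (∑ s, (n s : ℝ)) / ρ := by positivity
    positivity
  have p1 := (peierls_pos D hD hst (fun i : (Σ s, Fin (n s)) => i.1) _ T hℓ hT).2
  have p2 := (peierls_pos D hD hst (fun i : (Σ s, Fin (addPair n a b s)) => i.1) _ T hℓ hT).2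
  have hnb : (0 : ℝ) < (n b : ℝ) + 1 := by positivity
  have h4 := Real.log_le_log (mul_pos hN p1) h3
  rw [Real.log_mul hN.ne' p1.ne', Real.log_mul (mul_pos hK hnb).ne' p2.ne',
    Real.log_mul hK.ne' hnb.ne'] at h4
  rw [Real.log_div hN.ne' hnb.ne']
  unfold freeEnergy partition
  nlinarith

theorem addPair_swap {S : Type} [DecidableEq S] (n : S → ℕ) (a b : S) :
    addPair n a b = addPair n b a := by
  unfold addPair
  exact add_right_comm _ _ _

theorem upperT_min {S : Type} [Fintype S] [DecidableEq S] (D : Species S) (hD : D.Valid)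
    (hst : HStable D) (a b : S) (hb : D.charge b = -D.charge a) (ρ T : ℝ) (hρ : 0 < ρ)
    (hT : 0 < T) :
    ∃ C : ℝ, ∀ n : S → ℕ, 1 ≤ ∑ s, (n s : ℝ) →
      freeEnergy D (((∑ s, (n s : ℝ)) / ρ) ^ (1 / 3 : ℝ)) T (addPair n a b) -
        freeEnergy D (((∑ s, (n s : ℝ)) / ρ) ^ (1 / 3 : ℝ)) T n ≤ C -
          T * Real.log ((∑ s, (n s : ℝ)) / (min (n a : ℝ) (n b) + 1)) := by
  obtain ⟨C1, h1⟩ := upperT_rare D hD hst a b hb ρ T hρ hT
  obtain ⟨C2, h2⟩ := upperT_rare D hD hst b a (by rw [hb]; ring) ρ T hρ hT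
  refine ⟨max C1 C2, fun n hn => ?_⟩
  have k1 := h1 n hn
  have k2 := h2 n hn
  rw [← addPair_swap] at k2
  rcases le_total (n a : ℝ) (n b) with h | h
  · rw [min_eq_left h]
    have := le_max_right C1 C2
    linarith
  · rw [min_eq_right h]
    have := le_max_left C1 C2
    linarith

/-- Insertion of a neutral pair at temperature `T > 0`, all occupation numbers: the change of the
free energy is at most `C - T log (N / (1 + min (n_a, n_b)))`; on a set of neutral occupation
numbers it is bounded if and only if the fractions `(1 + min (n_a, n_b)) / N` are bounded away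
from zero; and it is bounded for all neutral occupation numbers if and only if no neutral
occupation numbers contain a third species. -/
theorem result {S : Type} [Fintype S] [DecidableEq S] (D : Species S) (hD : D.Valid)
    (hst : HStable D) (a b : S) (hb : D.charge b = -D.charge a) (ρ T : ℝ) (hρ : 0 < ρ)
    (hT : 0 < T) :
    (∃ C : ℝ, ∀ n : S → ℕ, 1 ≤ ∑ s, (n s : ℝ) →
      freeEnergy D (((∑ s, (n s : ℝ)) / ρ) ^ (1 / 3 : ℝ)) T (addPair n a b) -
        freeEnergy D (((∑ s, (n s : ℝ)) / ρ) ^ (1 / 3 : ℝ)) T n ≤ C -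
          T * Real.log ((∑ s, (n s : ℝ)) / (min (n a : ℝ) (n b) + 1))) ∧
    (∀ A : Set (S → ℕ), (∀ n ∈ A, 1 ≤ ∑ s, (n s : ℝ) ∧ ∑ s, (n s : ℝ) * D.charge s = 0) →
      ((∃ C : ℝ, ∀ n ∈ A,
        |freeEnergy D (((∑ s, (n s : ℝ)) / ρ) ^ (1 / 3 : ℝ)) T (addPair n a b) -
          freeEnergy D (((∑ s, (n s : ℝ)) / ρ) ^ (1 / 3 : ℝ)) T n| ≤ C) ↔
        ∃ c : ℝ, 0 < c ∧ ∀ n ∈ A, c * ∑ s, (n s : ℝ) ≤ min (n a : ℝ) (n b) + 1)) ∧
    ((∃ C : ℝ, ∀ n : S → ℕ, 1 ≤ ∑ s, (n s : ℝ) → ∑ s, (n s : ℝ) * D.charge s = 0 →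
        |freeEnergy D (((∑ s, (n s : ℝ)) / ρ) ^ (1 / 3 : ℝ)) T (addPair n a b) -
          freeEnergy D (((∑ s, (n s : ℝ)) / ρ) ^ (1 / 3 : ℝ)) T n| ≤ C) ↔
      ∀ n : S → ℕ, ∑ s, (n s : ℝ) * D.charge s = 0 → ∀ s, n s ≠ 0 → s = a ∨ s = b) := by
  have hab : a ≠ b := by
    rintro rfl
    have := hD.charge_ne a
    apply this
    linarith
  have hmin := upperT_min D hD hst a b hb ρ T hρ hT
  have hset : ∀ A : Set (S → ℕ),
      (∀ n ∈ A, 1 ≤ ∑ s, (n s : ℝ) ∧ ∑ s, (n s : ℝ) * D.charge s = 0) →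
      ((∃ C : ℝ, ∀ n ∈ A,
        |freeEnergy D (((∑ s, (n s : ℝ)) / ρ) ^ (1 / 3 : ℝ)) T (addPair n a b) -
          freeEnergy D (((∑ s, (n s : ℝ)) / ρ) ^ (1 / 3 : ℝ)) T n| ≤ C) ↔
        ∃ c : ℝ, 0 < c ∧ ∀ n ∈ A, c * ∑ s, (n s : ℝ) ≤ min (n a : ℝ) (n b) + 1) := by
    intro A hA
    constructor
    · rintro ⟨C, hC⟩
      obtain ⟨C', hC'⟩ := hmin
      refine ⟨Real.exp (-(C + C') / T), Real.exp_pos _, fun n hn => ?_⟩
      have k1 := (abs_le.1 (hC n hn)).1
      have k2 := hC' n (hA n hn).1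
      have hN : 0 < ∑ s, (n s : ℝ) := by linarith [(hA n hn).1]
      have hm : (0 : ℝ) < min (n a : ℝ) (n b) + 1 := by positivity
      have k3 : Real.log ((∑ s, (n s : ℝ)) / (min (n a : ℝ) (n b) + 1)) ≤ (C + C') / T := by
        rw [le_div_iff₀ hT]
        linarith
      have k4 := (Real.log_le_iff_le_exp (by positivity)).1 k3
      rw [div_le_iff₀ hm] at k4
      rw [neg_div, Real.exp_neg]
      rw [inv_mul_le_iff₀ (Real.exp_pos _)]
      exact k4
    · rintro ⟨c, hc, hcA⟩
      obtain ⟨C1, h1⟩ := upperT_final D hD hst a b hb ρ T hρ hT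
      obtain ⟨C2, h2⟩ := lowerT_final D hD hst a b hb ρ T hρ hT c hc
      refine ⟨max C1 C2, fun n hn => ?_⟩
      have k0 := hcA n hn
      have k1 := h1 n (hA n hn).1
      have k2 := h2 n (hA n hn).1 (hA n hn).2
        (k0.trans (by linarith [min_le_left (n a : ℝ) (n b)]))
        (k0.trans (by linarith [min_le_right (n a : ℝ) (n b)]))
      rw [abs_le]
      have m1 := le_max_left C1 C2
      have m2 := le_max_right C1 C2
      constructor <;> linarith
  refine ⟨hmin, hset, ?_⟩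
  have hset' := hset {n | 1 ≤ ∑ s, (n s : ℝ) ∧ ∑ s, (n s : ℝ) * D.charge s = 0} (fun n hn => hn)
  constructor
  · rintro ⟨C, hC⟩ n hneu s hs
    obtain ⟨c, hc, hcA⟩ := hset'.1 ⟨C, fun n hn => hC n hn.1 hn.2⟩
    by_contra hcon
    push_neg at hcon
    -- remove pairs
    obtain ⟨m, hm⟩ : ∃ m : ℕ, m = min (n a) (n b) := ⟨_, rfl⟩
    let n1 : S → ℕ := fun t => if t = a ∨ t = b then n t - m else n t
    have hn1 : ∀ t, (n1 t : ℝ) = n t - (if t = a then (m : ℝ) else 0) -
        (if t = b then (m : ℝ) else 0) := by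
      intro t
      by_cases h1 : t = a
      · subst h1
        have : m ≤ n t := by rw [hm]; exact min_le_left _ _
        simp only [n1, true_or, if_true, if_neg hab]
        push_cast [this]
        ring
      · by_cases h2 : t = b
        · subst h2
          have : m ≤ n t := by rw [hm]; exact min_le_right _ _
          simp only [n1, or_true, if_true, if_neg h1]
          push_cast [this]
          ring
        · simp only [n1, h1, h2, or_self, if_false]
          ring
    have hneu1 : ∑ t, (n1 t : ℝ) * D.charge t = 0 := by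
      simp only [hn1, sub_mul, ite_mul, zero_mul, Finset.sum_sub_distrib, Finset.sum_ite_eq',
        Finset.mem_univ, if_true, hneu, hb]
      ring
    have hs1 : n1 s = n s := by
      simp only [n1, hcon.1, hcon.2, or_self, if_false]
    have hN1 : (1 : ℝ) ≤ ∑ t, (n1 t : ℝ) := by
      have h1 : (n1 s : ℝ) ≤ ∑ t, (n1 t : ℝ) :=
        Finset.single_le_sum (f := fun t => (n1 t : ℝ)) (fun t _ => Nat.cast_nonneg _)
          (Finset.mem_univ s)
      have h2 : (1 : ℝ) ≤ n1 s := by
        rw [hs1]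
        exact_mod_cast Nat.one_le_iff_ne_zero.2 hs
      linarith
    have hmin1 : min (n1 a : ℝ) (n1 b) = 0 := by
      have e1 : n1 a = n a - m := by simp only [n1, true_or, if_true]
      have e2 : n1 b = n b - m := by simp only [n1, or_true, if_true]
      rcases le_total (n a) (n b) with h | h
      · have : m = n a := by rw [hm]; exact min_eq_left h
        rw [e1, this, Nat.sub_self, Nat.cast_zero]
        exact min_eq_left (Nat.cast_nonneg _)
      · have : m = n b := by rw [hm]; exact min_eq_right h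
        rw [e2, this, Nat.sub_self, Nat.cast_zero]
        exact min_eq_right (Nat.cast_nonneg _)
    -- multiples
    obtain ⟨k, hk⟩ := exists_nat_gt (1 / c)
    have hk0 : (0 : ℝ) < k := lt_trans (by positivity) hk
    have hkN : 1 ≤ (k : ℝ) := by
      exact_mod_cast Nat.one_le_iff_ne_zero.2 (fun h => by subst h; simp at hk0)
    have hsum : ∑ t, (((fun t => k * n1 t : S → ℕ) t : ℕ) : ℝ) = k * ∑ t, (n1 t : ℝ) := by
      push_cast
      rw [Finset.mul_sum]
    have hneu2 : ∑ t, (((fun t => k * n1 t : S → ℕ) t : ℕ) : ℝ) * D.charge t = 0 := by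
      push_cast
      simp only [mul_assoc]
      rw [← Finset.mul_sum, hneu1, mul_zero]
    have h5 := hcA (fun t => k * n1 t) ⟨by rw [hsum]; nlinarith, hneu2⟩
    rw [hsum] at h5
    have h6 : min (((k * n1 a : ℕ) : ℝ)) ((k * n1 b : ℕ) : ℝ) = 0 := by
      push_cast
      rw [← mul_min_of_nonneg _ _ hk0.le, hmin1, mul_zero]
    rw [h6, zero_add] at h5
    rw [div_lt_iff₀ hc] at hk
    have h7 : (k : ℝ) * c ≤ c * (k * ∑ t, (n1 t : ℝ)) := by
      have : 0 < (k : ℝ) * c := by positivity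
      nlinarith
    linarith
  · intro h
    obtain ⟨C, hC⟩ := hset'.2 ⟨1 / 2, by norm_num, fun n hn => by
      have hz : ∀ s, s ≠ a → s ≠ b → n s = 0 := by
        intro s h1 h2
        by_contra hne
        rcases h n hn.2 s hne with h3 | h3
        · exact h1 h3
        · exact h2 h3
      have e1 : ∑ s, (n s : ℝ) = n a + n b := by
        rw [← Finset.sum_pair (f := fun s => (n s : ℝ)) hab]
        refine (Finset.sum_subset (Finset.subset_univ _) fun s _ hs => ?_).symm
        simp only [Finset.mem_insert, Finset.mem_singleton, not_or] at hs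
        rw [hz s hs.1 hs.2, Nat.cast_zero]
      have e2 : (n a : ℝ) * D.charge a + n b * D.charge b = 0 := by
        rw [← hn.2, ← Finset.sum_pair (f := fun s => (n s : ℝ) * D.charge s) hab]
        refine (Finset.sum_subset (Finset.subset_univ _) fun s _ hs => ?_)
        simp only [Finset.mem_insert, Finset.mem_singleton, not_or] at hs
        rw [hz s hs.1 hs.2, Nat.cast_zero, zero_mul]
      have e3 : (n a : ℝ) = n b := by
        rw [hb] at e2
        have h3 : ((n a : ℝ) - n b) * D.charge a = 0 := by linarith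
        rcases mul_eq_zero.mp h3 with h4 | h4
        · linarith
        · exact absurd h4 (hD.charge_ne a)
      rw [e1, e3, min_self]
      linarith⟩
    exact ⟨C, fun n hn hneu => hC n ⟨hn, hneu⟩⟩

end Pool.Agent.Results.MP_0655ed_mp.RareSpecies
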